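import Pool.Agent.H880R3.CP.Ibp

/-! Task SPEC of project COVPROD. -/

set_option autoImplicit false

open MeasureTheory Metric Real
open scoped ComplexConjugate

namespace Pool.Agent.H880R3.CP

open Pool.Agent.H624R3.CP

theorem lp_zero {d : ℕ} (M : Matrix (Fin d) (Fin d) ℝ) : lp M 0 = 0 := by
  have : (fun i : Fin d => (((0 : Fin d → ℤ) i : ℤ) : ℝ)) = 0 := by ext i; simp
  unfold Pool.Agent.H624R3.CP.lp
  rw [this, Matrix.mulVec_zero]
  rfl

/-- splitting off the term at zero -/
theorem split {d : ℕ} (F : (Fin d → ℤ) → ℝ) (hF : Summable F) :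
    ∑' u, F u = F 0 + ∑' u : {z : Fin d → ℤ // z ≠ 0}, F u.1 := by
  rw [hF.tsum_eq_add_tsum_ite 0]
  congr 1
  have h := tsum_subtype {z : Fin d → ℤ | z ≠ 0} F
  refine Eq.trans ?_ h.symm
  refine tsum_congr fun z => ?_
  by_cases hz : z = 0
  · simp [hz]
  · simp [hz]

theorem summ {d : ℕ} (F : (Fin d → ℤ) → ℝ) (U : Finset (Fin d → ℤ)) (h : ∀ u ∉ U, F u = 0) :
    Summable F := summable_of_ne_finset_zero h

/-- the square of the projection norm -/
theorem pn_sq {d : ℕ} (S : Submodule ℝ (E d)) {ι : Type} [Fintype ι] (b : OrthonormalBasis ι ℝ S)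
    (x : E d) : pn S x ^ 2 = ∑ k, inner ℝ (b k : E d) x ^ 2 := by
  have h := b.sum_sq_norm_inner_right (S.orthogonalProjectionOnto x)
  have h2 : ∀ k, inner ℝ (b k) (S.orthogonalProjectionOnto x) = inner ℝ (b k : E d) x := fun k =>
    Submodule.inner_orthogonalProjectionOnto_eq_of_mem_left (b k) x
  have h3 : pn S x = ‖S.orthogonalProjectionOnto x‖ := rfl
  rw [h3, ← h]
  refine Finset.sum_congr rfl fun k _ => ?_
  rw [h2, Real.norm_eq_abs, sq_abs]

theorem pn_inner {d : ℕ} (S : Submodule ℝ (E d)) {ι : Type} [Fintype ι] (b : OrthonormalBasis ι ℝ S)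
    (x y : E d) : |∑ k, inner ℝ x (b k : E d) * inner ℝ y (b k : E d)| ≤ pn S x * pn S y := by
  have h := b.sum_inner_mul_inner (S.orthogonalProjectionOnto x) (S.orthogonalProjectionOnto y)
  have h2 : ∀ k, inner ℝ (b k) (S.orthogonalProjectionOnto y) = inner ℝ (b k : E d) y := fun k =>
    Submodule.inner_orthogonalProjectionOnto_eq_of_mem_left (b k) y
  have h2' : ∀ k, inner ℝ (S.orthogonalProjectionOnto x) (b k) = inner ℝ x (b k : E d) := fun k => by
    rw [real_inner_comm, Submodule.inner_orthogonalProjectionOnto_eq_of_mem_left (b k) x,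
      real_inner_comm]
  have h4 : ∑ k, inner ℝ x (b k : E d) * inner ℝ y (b k : E d) =
      inner ℝ (S.orthogonalProjectionOnto x) (S.orthogonalProjectionOnto y) := by
    rw [← h]
    refine Finset.sum_congr rfl fun k _ => ?_
    rw [h2, h2', real_inner_comm y]
  rw [h4]
  exact abs_real_inner_le_norm _ _

theorem continuous_pn {d : ℕ} (S : Submodule ℝ (E d)) : Continuous (pn S) :=
  S.starProjection.continuous.norm

theorem pn_zero {d : ℕ} (S : Submodule ℝ (E d)) : pn S 0 = 0 := by
  unfold pn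
  rw [map_zero, norm_zero]

theorem pn_nonneg {d : ℕ} (S : Submodule ℝ (E d)) (x : E d) : 0 ≤ pn S x := norm_nonneg _

/-- task SPEC -/
theorem taskSPEC : TaskSPEC := by
  intro d M H S x0 r hM hH hs hr hdist
  obtain ⟨c, hc, hP⟩ := pars_E M hM
  have hHc : Continuous H := hH.continuous
  have hGc := continuous_grad H hH
  have hGs := compact_grad H hs
  have hec : ∀ ξ : E d, Continuous fun x : E d => ee (inner ℝ x ξ) := fun ξ =>
    continuous_ee.comp (by fun_prop)
  set b := stdOrthonormalBasis ℝ S with hb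
  -- the functions
  set f : E d → ℂ := fun x => (H x : ℂ) * ee (inner ℝ x x0) with hf
  set fk : Fin (Module.finrank ℝ S) → E d → ℂ := fun k x =>
    ((inner ℝ (gradient H x) (b k : E d) : ℝ) : ℂ) * ee (inner ℝ x x0) with hfk
  have hfc : Continuous f := (Complex.continuous_ofReal.comp hHc).mul (hec x0)
  have hfs : HasCompactSupport f :=
    (hs.comp_left (g := fun t : ℝ => (t : ℂ)) Complex.ofReal_zero).mul_right
  have hfkc : ∀ k, Continuous (fk k) := fun k =>
    (Complex.continuous_ofReal.comp (hGc.inner continuous_const)).mul (hec x0)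
  have hfks : ∀ k, HasCompactSupport (fk k) := fun k =>
    (hGs.comp_left (g := fun t : E d => ((inner ℝ t (b k : E d) : ℝ) : ℂ)) (by simp)).mul_right
  obtain ⟨S0, hS0, hS0'⟩ := hP f hfc hfs
  choose Sk hSk hSk' using fun k => hP (fk k) (hfkc k) (hfks k)
  -- the coefficients
  set A : (Fin d → ℤ) → ℂ := fun m => ∫ x, (H x : ℂ) * ee (inner ℝ x (x0 - dp M m)) with hA
  have hA1 : ∀ m, ∫ x, ee (-inner ℝ x (dp M m)) * f x = A m := fun m => by
    refine integral_congr_ae (Filter.Eventually.of_forall fun x => ?_)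
    simp only [hf]
    rw [inner_sub_right, sub_eq_add_neg, ee_add]
    ring
  have hA2 : ∀ k m, ∫ x, ee (-inner ℝ x (dp M m)) * fk k x =
      -(2 * π * Complex.I * (inner ℝ (b k : E d) (x0 - dp M m) : ℝ)) * A m := fun k m => by
    rw [hA]
    simp only
    rw [← ibp H hH hs]
    refine integral_congr_ae (Filter.Eventually.of_forall fun x => ?_)
    simp only [hfk]
    rw [inner_sub_right, sub_eq_add_neg, ee_add]
    ring
  have hmain : 4 * π ^ 2 * r ^ 2 * S0 ≤ ∑ k, Sk k := by
    refine hasSum_le (fun m => ?_) (hS0.mul_left (4 * π ^ 2 * r ^ 2))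
      (hasSum_sum fun k (_ : k ∈ Finset.univ) => hSk k)
    rw [hA1]
    have h1 : ∀ k, c ^ 2 * ‖∫ x, ee (-inner ℝ x (dp M m)) * fk k x‖ ^ 2 =
        (c ^ 2 * (4 * π ^ 2) * ‖A m‖ ^ 2) * inner ℝ (b k : E d) (x0 - dp M m) ^ 2 := fun k => by
      rw [hA2, norm_mul, norm_neg, norm_mul, norm_mul, norm_mul, Complex.norm_I, Complex.norm_real,
        Complex.norm_real, Real.norm_eq_abs, Real.norm_eq_abs, mul_pow, mul_pow, mul_pow, mul_pow,
        sq_abs, sq_abs]
      norm_num
      ring
    simp only [h1]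
    rw [← Finset.mul_sum, ← pn_sq S b]
    have h2 : r ^ 2 ≤ pn S (x0 - dp M m) ^ 2 := pow_le_pow_left₀ hr (hdist m) 2
    calc 4 * π ^ 2 * r ^ 2 * (c ^ 2 * ‖A m‖ ^ 2)
        = (c ^ 2 * (4 * π ^ 2) * ‖A m‖ ^ 2) * r ^ 2 := by ring
      _ ≤ _ := mul_le_mul_of_nonneg_left h2 (by positivity)
  -- finiteness
  obtain ⟨U, hU⟩ := exists_UE M hM (tsupport H) hs
  have hz1 : ∀ u ∉ U, ∀ x, |H x| * |H (x + lp M u)| = 0 := fun u hu x => by
    by_cases hx : x ∈ tsupport H
    · rw [image_eq_zero_of_notMem_tsupport (hU u hu x hx), abs_zero, mul_zero]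
    · rw [image_eq_zero_of_notMem_tsupport hx, abs_zero, zero_mul]
  obtain ⟨U', hU'⟩ := exists_UE M hM (tsupport (gradient H)) hGs
  have hz2 : ∀ u ∉ U', ∀ x, pn S (gradient H x) * pn S (gradient H (x + lp M u)) = 0 :=
    fun u hu x => by
    by_cases hx : x ∈ tsupport (gradient H)
    · rw [image_eq_zero_of_notMem_tsupport (hU' u hu x hx), pn_zero, mul_zero]
    · rw [image_eq_zero_of_notMem_tsupport hx, pn_zero, zero_mul]
  -- real parts
  have hre0 : HasSum (fun u : Fin d → ℤ => c * (∫ x, f x * conj (f (x + lp M u))).re) S0 := by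
    have h := Complex.hasSum_re hS0'
    rw [Complex.ofReal_re] at h
    exact h.congr_fun fun u => by rw [Complex.re_ofReal_mul]
  have hrek : HasSum (fun u : Fin d → ℤ => c * ∑ k, (∫ x, fk k x * conj (fk k (x + lp M u))).re)
      (∑ k, Sk k) := by
    have h : HasSum (fun u : Fin d → ℤ => ∑ k, c * (∫ x, fk k x * conj (fk k (x + lp M u))).re)
        (∑ k, Sk k) := by
      refine hasSum_sum fun k _ => ?_
      have h := Complex.hasSum_re (hSk' k)
      rw [Complex.ofReal_re] at h
      exact h.congr_fun fun u => by rw [Complex.re_ofReal_mul]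
    exact h.congr_fun fun u => by rw [Finset.mul_sum]
  -- left side
  have hbd : ∀ (w : E d) (I : ℝ), |(ee (-inner ℝ w x0) * (I : ℂ)).re| ≤ |I| := fun w I => by
    refine (Complex.abs_re_le_norm _).trans ?_
    rw [norm_mul, norm_ee, one_mul, Complex.norm_real, Real.norm_eq_abs]
  set P : (Fin d → ℤ) → ℝ := fun u => ∫ y, |H y| * |H (y + lp M u)| with hPdef
  set L : (Fin d → ℤ) → ℝ := fun u => if u = 0 then ∫ y, H y ^ 2 else -P u with hLdef
  have hPz : ∀ u ∉ U, P u = 0 := fun u hu => by
    simp only [hPdef, hz1 u hu, integral_zero]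
  have hLsum : Summable L := by
    refine summ L (insert 0 U) fun u hu => ?_
    rw [Finset.mem_insert, not_or] at hu
    simp only [hLdef, if_neg hu.1, hPz u hu.2, neg_zero]
  have hL1 : c * (∑' u, L u) ≤ S0 := by
    refine hasSum_le (fun u => ?_) (hLsum.hasSum.mul_left c) hre0
    refine mul_le_mul_of_nonneg_left ?_ hc.le
    have h1 := corr H x0 (lp M u)
    simp only [hf]
    rw [h1]
    by_cases hu : u = 0
    · simp only [hLdef, if_pos hu]
      rw [hu, lp_zero, inner_zero_left, neg_zero, ee_zero, one_mul, Complex.ofReal_re]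
      refine le_of_eq (integral_congr_ae (Filter.Eventually.of_forall fun x => ?_))
      simp only [add_zero]
      ring
    · simp only [hLdef, if_neg hu]
      have h2 : |∫ x, H x * H (x + lp M u)| ≤ P u := by
        refine (abs_integral_le_integral_abs).trans (le_of_eq ?_)
        simp only [hPdef, abs_mul]
      have h3 := neg_abs_le ((ee (-inner ℝ (lp M u) x0) *
        ((∫ x, H x * H (x + lp M u) : ℝ) : ℂ)).re)
      have h4 := hbd (lp M u) (∫ x, H x * H (x + lp M u))
      linarith
  have hL2 : ∑' u, L u = (∫ y, H y ^ 2) - ∑' z : {z : Fin d → ℤ // z ≠ 0}, P z.1 := by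
    rw [split L hLsum]
    have h1 : L 0 = ∫ y, H y ^ 2 := by simp only [hLdef, if_pos]
    have h2 : ∀ z : {z : Fin d → ℤ // z ≠ 0}, L z.1 = -P z.1 := fun z => by
      simp only [hLdef, if_neg z.2]
    rw [h1, tsum_congr h2, tsum_neg]
    ring
  -- right side
  set R : (Fin d → ℤ) → ℝ := fun u =>
    ∫ y, pn S (gradient H y) * pn S (gradient H (y + lp M u)) with hRdef
  have hRsum : Summable R := by
    refine summ R U' fun u hu => ?_
    simp only [hRdef, hz2 u hu, integral_zero]
  have hR1 : ∑ k, Sk k ≤ c * (∑' u, R u) := by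
    refine hasSum_le (fun u => ?_) hrek (hRsum.hasSum.mul_left c)
    refine mul_le_mul_of_nonneg_left ?_ hc.le
    have h1 : ∀ k, ∫ x, fk k x * conj (fk k (x + lp M u)) = ee (-inner ℝ (lp M u) x0) *
        ((∫ x, inner ℝ (gradient H x) (b k : E d) *
          inner ℝ (gradient H (x + lp M u)) (b k : E d) : ℝ) : ℂ) := fun k =>
      corr (fun x => inner ℝ (gradient H x) (b k : E d)) x0 (lp M u)
    simp only [h1]
    rw [← Complex.re_sum, ← Finset.mul_sum, ← Complex.ofReal_sum]
    have hint : ∀ k ∈ Finset.univ, Integrable fun x => inner ℝ (gradient H x) (b k : E d) *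
          inner ℝ (gradient H (x + lp M u)) (b k : E d) := fun k _ => by
      refine Continuous.integrable_of_hasCompactSupport ?_ ?_
      · exact (hGc.inner continuous_const).mul
          ((hGc.comp (continuous_id.add continuous_const)).inner continuous_const)
      · exact (hGs.comp_left (g := fun t : E d => inner ℝ t (b k : E d)) (by simp)).mul_right
    rw [← integral_finsetSum Finset.univ hint]
    refine (le_abs_self _).trans ((hbd _ _).trans (abs_integral_le_integral_abs.trans ?_))
    refine integral_mono_of_nonneg (Filter.Eventually.of_forall fun x => abs_nonneg _) ?_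
      (Filter.Eventually.of_forall fun x => pn_inner S b _ _)
    refine Continuous.integrable_of_hasCompactSupport ?_ ?_
    · exact ((continuous_pn S).comp hGc).mul
        ((continuous_pn S).comp (hGc.comp (continuous_id.add continuous_const)))
    · exact (hGs.comp_left (g := pn S) (pn_zero S)).mul_right
  have hR2 : ∑' u, R u = (∫ y, pn S (gradient H y) ^ 2) +
      ∑' z : {z : Fin d → ℤ // z ≠ 0}, R z.1 := by
    rw [split R hRsum]
    congr 1
    simp only [hRdef]
    refine integral_congr_ae (Filter.Eventually.of_forall fun x => ?_)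
    simp only [lp_zero, add_zero]
    ring
  have hfin : 4 * π ^ 2 * r ^ 2 * (∑' u, L u) ≤ ∑' u, R u := by
    have h1 : c * (4 * π ^ 2 * r ^ 2 * (∑' u, L u)) ≤ c * ∑' u, R u := by
      calc c * (4 * π ^ 2 * r ^ 2 * (∑' u, L u)) = 4 * π ^ 2 * r ^ 2 * (c * ∑' u, L u) := by ring
        _ ≤ 4 * π ^ 2 * r ^ 2 * S0 := mul_le_mul_of_nonneg_left hL1 (by positivity)
        _ ≤ _ := hmain
        _ ≤ _ := hR1
    exact le_of_mul_le_mul_left h1 hc
  rw [hL2, hR2] at hfin
  exact hfin

end Pool.Agent.H880R3.CP
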