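import Pool.Agent.H880R3.CP.ParsE

/-! Integration by parts and correlations. -/

set_option autoImplicit false

open MeasureTheory Metric Real
open scoped ComplexConjugate

namespace Pool.Agent.H880R3.CP

open Pool.Agent.H624R3.CP

theorem hasDerivAt_ee (t : ℝ) : HasDerivAt ee (2 * π * Complex.I * ee t) t := by
  have h : HasDerivAt (fun z : ℂ => Complex.exp (2 * π * z * Complex.I))
      (Complex.exp (2 * π * t * Complex.I) * (2 * π * 1 * Complex.I)) (t : ℂ) :=
    (((hasDerivAt_id' (t : ℂ)).const_mul (2 * π : ℂ)).mul_const Complex.I).cexp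
  have h2 := h.comp_ofReal
  unfold ee
  convert h2 using 1
  ring

theorem hasFDerivAt_ee {d : ℕ} (ξ x : E d) :
    HasFDerivAt (fun x : E d => ee (inner ℝ x ξ))
      ((ContinuousLinearMap.toSpanSingleton ℝ (2 * π * Complex.I * ee (inner ℝ x ξ))).comp
        (innerSL ℝ ξ)) x := by
  have h1 : HasFDerivAt (fun x : E d => inner ℝ x ξ) (innerSL ℝ ξ) x := by
    have := (innerSL ℝ ξ).hasFDerivAt (x := x)
    refine this.congr_of_eventuallyEq (Filter.Eventually.of_forall fun y => ?_)
    simp [real_inner_comm]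
  exact (hasDerivAt_ee (inner ℝ x ξ)).hasFDerivAt.comp x h1

theorem hasFDerivAt_H {d : ℕ} (H : E d → ℝ) (hH : ContDiff ℝ 1 H) (x : E d) :
    HasFDerivAt (fun x : E d => (H x : ℂ)) (Complex.ofRealCLM.comp (fderiv ℝ H x)) x :=
  Complex.ofRealCLM.hasFDerivAt.comp x ((hH.differentiable one_ne_zero x).hasFDerivAt)

theorem inner_grad {d : ℕ} (H : E d → ℝ) (x v : E d) :
    inner ℝ (gradient H x) v = fderiv ℝ H x v := by
  unfold gradient
  rw [InnerProductSpace.toDual_symm_apply]

theorem continuous_grad {d : ℕ} (H : E d → ℝ) (hH : ContDiff ℝ 1 H) : Continuous (gradient H) :=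
  (InnerProductSpace.toDual ℝ (E d)).symm.continuous.comp (hH.continuous_fderiv one_ne_zero)

theorem compact_grad {d : ℕ} (H : E d → ℝ) (hs : HasCompactSupport H) :
    HasCompactSupport (gradient H) :=
  (hs.fderiv ℝ).comp_left (map_zero (InnerProductSpace.toDual ℝ (E d)).symm)

theorem ibp {d : ℕ} (H : E d → ℝ) (hH : ContDiff ℝ 1 H) (hs : HasCompactSupport H) (v ξ : E d) :
    ∫ x, ((inner ℝ (gradient H x) v : ℝ) : ℂ) * ee (inner ℝ x ξ) =
      -(2 * π * Complex.I * (inner ℝ v ξ : ℝ)) * ∫ x, (H x : ℂ) * ee (inner ℝ x ξ) := by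
  have hHc := hH.continuous
  have hec : Continuous fun x : E d => ee (inner ℝ x ξ) := continuous_ee.comp (by fun_prop)
  have hsC : HasCompactSupport fun x : E d => (H x : ℂ) :=
    hs.comp_left (g := fun t : ℝ => (t : ℂ)) Complex.ofReal_zero
  have hGc := continuous_grad H hH
  have hGs : HasCompactSupport fun x : E d => ((inner ℝ (gradient H x) v : ℝ) : ℂ) :=
    (compact_grad H hs).comp_left (g := fun t : E d => ((inner ℝ t v : ℝ) : ℂ)) (by simp)
  have hGcc : Continuous fun x : E d => ((inner ℝ (gradient H x) v : ℝ) : ℂ) :=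
    Complex.continuous_ofReal.comp (hGc.inner continuous_const)
  have hHcc : Continuous fun x : E d => (H x : ℂ) := Complex.continuous_ofReal.comp hHc
  have e1 : ∀ x, fderiv ℝ (fun x : E d => (H x : ℂ)) x v = ((inner ℝ (gradient H x) v : ℝ) : ℂ) :=
    fun x => by rw [(hasFDerivAt_H H hH x).fderiv, inner_grad]; rfl
  have e2 : ∀ x, fderiv ℝ (fun x : E d => ee (inner ℝ x ξ)) x v =
      (2 * π * Complex.I * (inner ℝ v ξ : ℝ)) * ee (inner ℝ x ξ) := fun x => by
    rw [(hasFDerivAt_ee ξ x).fderiv]
    simp only [ContinuousLinearMap.comp_apply, ContinuousLinearMap.toSpanSingleton_apply,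
      innerSL_apply_apply, Complex.real_smul]
    rw [real_inner_comm]
    ring
  have h := integral_mul_fderiv_eq_neg_fderiv_mul_of_integrable (μ := (volume : Measure (E d)))
    (f := fun x : E d => ee (inner ℝ x ξ)) (g := fun x : E d => (H x : ℂ)) (v := v) ?_ ?_ ?_
    (fun x _ => (hasFDerivAt_ee ξ x).differentiableAt)
    (fun x _ => (hasFDerivAt_H H hH x).differentiableAt)
  · simp only [e1, e2] at h
    rw [← integral_const_mul]
    calc ∫ x, ((inner ℝ (gradient H x) v : ℝ) : ℂ) * ee (inner ℝ x ξ)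
        = ∫ x, ee (inner ℝ x ξ) * ((inner ℝ (gradient H x) v : ℝ) : ℂ) := by
          simp only [mul_comm]
      _ = _ := h
      _ = _ := by
          rw [← integral_neg]
          refine integral_congr_ae (Filter.Eventually.of_forall fun x => ?_)
          simp only
          ring
  · simp only [e2]
    exact ((continuous_const.mul hec).mul hHcc).integrable_of_hasCompactSupport hsC.mul_left
  · simp only [e1]
    exact (hec.mul hGcc).integrable_of_hasCompactSupport hGs.mul_left
  · exact (hec.mul hHcc).integrable_of_hasCompactSupport hsC.mul_left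

theorem corr {d : ℕ} (p : E d → ℝ) (x0 w : E d) :
    ∫ x, ((p x : ℂ) * ee (inner ℝ x x0)) * conj ((p (x + w) : ℂ) * ee (inner ℝ (x + w) x0)) =
      ee (-inner ℝ w x0) * ((∫ x, p x * p (x + w) : ℝ) : ℂ) := by
  rw [← integral_complex_ofReal, ← integral_const_mul]
  refine integral_congr_ae (Filter.Eventually.of_forall fun x => ?_)
  simp only
  rw [map_mul, Complex.conj_ofReal, conj_ee, inner_add_left, neg_add, ee_add]
  have h : ee (inner ℝ x x0) * ee (-inner ℝ x x0) = 1 := by
    rw [← ee_add, add_neg_cancel, ee_zero]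
  push_cast
  linear_combination (p x : ℂ) * (p (x + w) : ℂ) * ee (-inner ℝ w x0) * h

end Pool.Agent.H880R3.CP
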