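import Pool.Agent.H880R3.CP.Unf

/-! Parseval over the unit cube. -/

set_option autoImplicit false

open MeasureTheory Metric Real
open scoped ComplexConjugate

namespace Pool.Agent.H880R3.CP

/-- the additive character -/
noncomputable def ee (t : ℝ) : ℂ := Complex.exp (2 * π * t * Complex.I)

theorem ee_add (s t : ℝ) : ee (s + t) = ee s * ee t := by
  unfold ee
  rw [← Complex.exp_add]
  congr 1
  push_cast
  ring

theorem ee_zero : ee 0 = 1 := by simp [ee]

theorem norm_ee (t : ℝ) : ‖ee t‖ = 1 := by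
  unfold ee
  have : (2 * π * t * Complex.I : ℂ) = ((2 * π * t : ℝ) : ℂ) * Complex.I := by push_cast; ring
  rw [this, Complex.norm_exp_ofReal_mul_I]

theorem conj_ee (t : ℝ) : conj (ee t) = ee (-t) := by
  unfold ee
  rw [← Complex.exp_conj]
  congr 1
  have h : (2 * π * t * Complex.I : ℂ) = ((2 * π * t : ℝ) : ℂ) * Complex.I := by push_cast; ring
  rw [h, map_mul, Complex.conj_ofReal, Complex.conj_I]
  push_cast
  ring

theorem ee_int (n : ℤ) : ee n = 1 := by
  unfold ee
  have : (2 * π * ((n : ℝ) : ℂ) * Complex.I : ℂ) = n * (2 * π * Complex.I) := by push_cast; ring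
  rw [this, Complex.exp_int_mul_two_pi_mul_I]

theorem continuous_ee : Continuous ee := by
  unfold ee
  fun_prop

theorem ee_sum {ι : Type} (s : Finset ι) (f : ι → ℝ) : ee (∑ i ∈ s, f i) = ∏ i ∈ s, ee (f i) := by
  classical
  induction s using Finset.induction_on with
  | empty => simp [ee_zero]
  | insert a s ha ih => rw [Finset.sum_insert ha, Finset.prod_insert ha, ee_add, ih]

attribute [local instance] instMeasureSpaceUnitAddCircle

local instance : IsProbabilityMeasure (volume : Measure UnitAddCircle) :=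
  inferInstanceAs (IsProbabilityMeasure AddCircle.haarAddCircle)

open UnitAddTorus in
theorem parseval {d : ℕ} (Φ : (Fin d → ℝ) → ℂ) (hc : Continuous Φ) :
    HasSum (fun m : Fin d → ℤ => ‖∫ x in Q d, ee (-∑ i, m i * x i) * Φ x‖ ^ 2)
      (∫ x in Q d, ‖Φ x‖ ^ 2) := by
  set F : UnitAddTorus (Fin d) → ℂ := fun t =>
    Φ ((measurableEquivPiIoc (fun _ : Fin d => (0 : ℝ)) t).1) with hF
  have hFm : Measurable F := hc.measurable.comp
    (measurable_subtype_coe.comp (measurableEquivPiIoc (fun _ : Fin d => (0 : ℝ))).measurable)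
  have hK : IsCompact (Set.Icc (0 : Fin d → ℝ) 1) := isCompact_Icc
  obtain ⟨B, hB⟩ := hK.exists_bound_of_continuousOn hc.continuousOn
  have hFb : ∀ t, ‖F t‖ ≤ B := fun t => by
    refine hB _ ?_
    have := (measurableEquivPiIoc (fun _ : Fin d => (0 : ℝ)) t).2
    constructor
    · intro i
      exact (this i).1.le
    · intro i
      simpa using (this i).2
  have hL : MemLp F 2 (volume : Measure (UnitAddTorus (Fin d))) :=
    MemLp.of_bound hFm.aestronglyMeasurable B (Filter.Eventually.of_forall hFb)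
  have hcoe : ∀ x ∈ Q d, F (fun i => (x i : UnitAddCircle)) = Φ x := fun x hx => by
    have h1 : (measurableEquivPiIoc (fun _ : Fin d => (0 : ℝ))) (fun i => (x i : UnitAddCircle))
        = ⟨x, hx⟩ := by
      have h2 := (measurableEquivPiIoc (fun _ : Fin d => (0 : ℝ))).apply_symm_apply ⟨x, hx⟩
      rw [coe_symm_measurableEquivPiIoc_apply] at h2
      exact h2
    simp only [hF]
    rw [h1]
  have h := hasSum_sq_mFourierCoeff (hL.toLp F)
  have e1 : ∀ m : Fin d → ℤ, mFourierCoeff (hL.toLp F) m =
      ∫ x in Q d, ee (-∑ i, m i * x i) * Φ x := fun m => by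
    have e0 : mFourierCoeff (hL.toLp F) m = mFourierCoeff F m := by
      refine integral_congr_ae ?_
      filter_upwards [hL.coeFn_toLp] with t ht
      rw [ht]
    rw [e0, mFourierCoeff_eq_integral F m (fun _ => 0)]
    refine setIntegral_congr_fun (measurableSet_Q d) fun x hx => ?_
    rw [hcoe x hx, smul_eq_mul]
    congr 1
    rw [← Finset.sum_neg_distrib, ee_sum]
    simp only [mFourier, ContinuousMap.coe_mk]
    refine Finset.prod_congr rfl fun i _ => ?_
    rw [fourier_coe_apply, ee]
    congr 1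
    simp
    ring
  have e2 : ∫ t, ‖(hL.toLp F) t‖ ^ 2 = ∫ x in Q d, ‖Φ x‖ ^ 2 := by
    have e0 : ∫ t, ‖(hL.toLp F) t‖ ^ 2 = ∫ t, ‖F t‖ ^ 2 := by
      refine integral_congr_ae ?_
      filter_upwards [hL.coeFn_toLp] with t ht
      rw [ht]
    rw [e0, integral_preimage (fun t => ‖F t‖ ^ 2) (fun _ => 0)]
    refine setIntegral_congr_fun (measurableSet_Q d) fun x hx => ?_
    rw [hcoe x hx]
  rw [e2] at h
  refine h.congr_fun ?_
  intro m
  rw [e1]

end Pool.Agent.H880R3.CP
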