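import Pool.Agent.H880R3.CP.ParsV
import Pool.Agent.H624R3.CP.Stmts

/-! Parseval for a lattice in Euclidean space. -/

set_option autoImplicit false

open MeasureTheory Metric Real
open scoped ComplexConjugate

namespace Pool.Agent.H880R3.CP

open Pool.Agent.H624R3.CP

theorem exists_LM {d : ℕ} (M : Matrix (Fin d) (Fin d) ℝ) (hM : M.det ≠ 0) :
    ∃ L : (Fin d → ℝ) ≃L[ℝ] E d, ∀ y, L y = WithLp.toLp 2 (M.mulVec y) := by
  have hinj : Function.Injective (Matrix.toLin' M) := by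
    have h := Matrix.mulVec_injective_iff_isUnit.2 ((Matrix.isUnit_iff_isUnit_det M).2
      (isUnit_iff_ne_zero.2 hM))
    intro x y hxy
    exact h (by simpa using hxy)
  refine ⟨((LinearEquiv.ofInjectiveEndo (Matrix.toLin' M) hinj).trans
    (WithLp.linearEquiv 2 ℝ (Fin d → ℝ)).symm).toContinuousLinearEquiv, fun y => ?_⟩
  rfl

theorem cov {d : ℕ} (L : (Fin d → ℝ) ≃L[ℝ] E d) :
    ∃ c : ℝ, 0 < c ∧ ∀ g : E d → ℂ, ∫ y, g (L y) = c * ∫ x, g x := by
  have : (Measure.map L (volume : Measure (Fin d → ℝ))).IsAddHaarMeasure :=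
    L.isAddHaarMeasure_map volume
  refine ⟨(Measure.addHaarScalarFactor (Measure.map L (volume : Measure (Fin d → ℝ)))
    (volume : Measure (E d)) : ℝ), ?_, fun g => ?_⟩
  · exact_mod_cast Measure.addHaarScalarFactor_pos_of_isAddHaarMeasure _ _
  · have e : ∫ x, g x ∂(Measure.map L (volume : Measure (Fin d → ℝ))) = ∫ y, g (L y) :=
      (L.toHomeomorph.measurableEmbedding).integral_map (μ := volume) g
    have h := Measure.isAddLeftInvariant_eq_smul (Measure.map L (volume : Measure (Fin d → ℝ)))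
      (volume : Measure (E d))
    rw [← e]
    conv_lhs => rw [h]
    rw [integral_smul_nnreal_measure]
    simp [NNReal.smul_def]

theorem inner_dp {d : ℕ} (M : Matrix (Fin d) (Fin d) ℝ) (hM : M.det ≠ 0) (y : Fin d → ℝ)
    (m : Fin d → ℤ) :
    inner ℝ (WithLp.toLp 2 (M.mulVec y) : E d) (dp M m) = ∑ i, (m i : ℝ) * y i := by
  unfold dp Pool.Agent.H624R3.CP.lp
  rw [EuclideanSpace.inner_eq_star_dotProduct]
  simp only [star_trivial]
  rw [Matrix.mulVec_transpose, Matrix.dotProduct_mulVec, Matrix.vecMul_vecMul,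
    Matrix.nonsing_inv_mul _ (isUnit_iff_ne_zero.2 hM), Matrix.vecMul_one]
  rfl

theorem pars_E {d : ℕ} (M : Matrix (Fin d) (Fin d) ℝ) (hM : M.det ≠ 0) :
    ∃ c : ℝ, 0 < c ∧ ∀ f : E d → ℂ, Continuous f → HasCompactSupport f →
      ∃ S : ℝ, HasSum (fun m : Fin d → ℤ => c ^ 2 * ‖∫ x, ee (-inner ℝ x (dp M m)) * f x‖ ^ 2) S ∧
        HasSum (fun u : Fin d → ℤ => (c : ℂ) * ∫ x, f x * conj (f (x + lp M u))) (S : ℂ) := by
  obtain ⟨L, hL⟩ := exists_LM M hM
  obtain ⟨c, hc, hcov⟩ := cov L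
  refine ⟨c, hc, fun f hf hs => ?_⟩
  obtain ⟨S, h1, h2⟩ := pars_V (fun y => f (L y)) (hf.comp L.continuous)
    (hs.comp_homeomorph L.toHomeomorph)
  refine ⟨S, h1.congr_fun fun m => ?_, h2.congr_fun fun u => ?_⟩
  · have h3 := hcov fun x => ee (-inner ℝ x (dp M m)) * f x
    have h4 : ∀ y, inner ℝ (L y) (dp M m) = ∑ i, (m i : ℝ) * y i := fun y => by
      rw [hL, inner_dp M hM]
    simp only [h4] at h3
    rw [h3, norm_mul, mul_pow]
    simp
  · have h3 := hcov fun x => f x * conj (f (x + lp M u))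
    have h4 : ∀ y, L (y + ci u) = L y + lp M u := fun y => by
      rw [map_add, hL (ci u)]
      rfl
    rw [← h3]
    simp only [h4]

theorem exists_U {d : ℕ} (K : Set (Fin d → ℝ)) (hK : IsCompact K) :
    ∃ U : Finset (Fin d → ℤ), ∀ u ∉ U, ∀ x ∈ K, x + ci u ∉ K := by
  obtain ⟨R, hR⟩ := hK.isBounded.exists_norm_le
  have hfin : (Set.Icc (fun _ => -⌈2 * R⌉) (fun _ => ⌈2 * R⌉) : Set (Fin d → ℤ)).Finite :=
    Set.finite_Icc _ _
  refine ⟨hfin.toFinset, fun z hz x hx hK' => hz ?_⟩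
  rw [Set.Finite.mem_toFinset, Set.mem_Icc]
  have h1 : ∀ i, |x i + z i| ≤ R := fun i => by
    have := (norm_le_pi_norm (x + ci z) i).trans (hR _ hK')
    simpa [ci, Real.norm_eq_abs] using this
  have h2 : ∀ i, |x i| ≤ R := fun i => by
    have := (norm_le_pi_norm x i).trans (hR _ hx)
    simpa [Real.norm_eq_abs] using this
  have h4 := Int.le_ceil (2 * R)
  constructor
  · intro i
    have h3 := abs_le.1 (h1 i)
    have h3' := abs_le.1 (h2 i)
    have : (-(⌈2 * R⌉ : ℝ)) ≤ z i := by linarith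
    exact_mod_cast this
  · intro i
    have h3 := abs_le.1 (h1 i)
    have h3' := abs_le.1 (h2 i)
    have : (z i : ℝ) ≤ (⌈2 * R⌉ : ℝ) := by linarith
    exact_mod_cast this

theorem exists_UE {d : ℕ} (M : Matrix (Fin d) (Fin d) ℝ) (hM : M.det ≠ 0) (K : Set (E d))
    (hK : IsCompact K) :
    ∃ U : Finset (Fin d → ℤ), ∀ u ∉ U, ∀ x ∈ K, x + lp M u ∉ K := by
  obtain ⟨L, hL⟩ := exists_LM M hM
  obtain ⟨U, hU⟩ := exists_U (L ⁻¹' K) (L.toHomeomorph.isCompact_preimage.2 hK)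
  refine ⟨U, fun u hu x hx hx' => hU u hu (L.symm x) (by simpa using hx) ?_⟩
  rw [Set.mem_preimage, map_add, L.apply_symm_apply, hL (ci u)]
  exact hx'

end Pool.Agent.H880R3.CP
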