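import Pool.Agent.H880R3.CP.Pars

/-! Parseval for compactly supported functions. -/

set_option autoImplicit false

open MeasureTheory Metric Real
open scoped ComplexConjugate

namespace Pool.Agent.H880R3.CP

theorem integrableOn_Q {d : ℕ} (f : (Fin d → ℝ) → ℂ) (hf : Continuous f) : IntegrableOn f (Q d) := by
  refine (hf.integrableOn_Icc (a := (0 : Fin d → ℝ)) (b := 1)).mono_set ?_
  intro x hx
  constructor
  · intro i
    exact (hx i).1.le
  · intro i
    simpa using (hx i).2

theorem ee_shift {d : ℕ} (m z : Fin d → ℤ) (x : Fin d → ℝ) :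
    ee (-∑ i, m i * (x + ci z) i) = ee (-∑ i, m i * x i) := by
  have h : (-∑ i, m i * (x + ci z) i : ℝ) = -∑ i, m i * x i + ((-∑ i, m i * z i : ℤ) : ℝ) := by
    push_cast
    rw [← neg_add, ← Finset.sum_add_distrib]
    congr 1
    refine Finset.sum_congr rfl fun i _ => ?_
    simp only [Pi.add_apply, ci]
    ring
  rw [h, ee_add, ee_int, mul_one]

theorem pars_V {d : ℕ} (φ : (Fin d → ℝ) → ℂ) (hc : Continuous φ) (hs : HasCompactSupport φ) :
    ∃ S : ℝ, HasSum (fun m : Fin d → ℤ => ‖∫ x : Fin d → ℝ, ee (-∑ i, (m i : ℝ) * x i) * φ x‖ ^ 2) S ∧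
      HasSum (fun u : Fin d → ℤ => ∫ x, φ x * conj (φ (x + ci u))) (S : ℂ) := by
  obtain ⟨Z, hZ⟩ := exists_Z (tsupport φ) hs
  have hZ' : ∀ z ∉ Z, ∀ x ∈ Q d, φ (x + ci z) = 0 := fun z hz x hx =>
    image_eq_zero_of_notMem_tsupport (hZ z hz x hx)
  set Φ : (Fin d → ℝ) → ℂ := fun x => ∑ z ∈ Z, φ (x + ci z) with hΦ
  have hΦc : Continuous Φ := by
    refine continuous_finsetSum _ fun z _ => hc.comp (continuous_id.add continuous_const)
  have hsh : ∀ z : Fin d → ℤ, Continuous fun x : Fin d → ℝ => φ (x + ci z) := fun z =>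
    hc.comp (continuous_id.add continuous_const)
  refine ⟨∫ x in Q d, ‖Φ x‖ ^ 2, ?_, ?_⟩
  · refine (parseval Φ hΦc).congr_fun fun m => ?_
    congr 2
    have hce : Continuous fun x : Fin d → ℝ => ee (-∑ i, m i * x i) :=
      continuous_ee.comp (by fun_prop)
    have hg : Integrable fun x : Fin d → ℝ => ee (-∑ i, m i * x i) * φ x :=
      (hce.mul hc).integrable_of_hasCompactSupport hs.mul_left
    rw [unfold_fin _ hg Z fun z hz x hx => by rw [hZ' z hz x hx, mul_zero]]
    rw [← integral_finsetSum Z fun z _ => integrableOn_Q _ ?_]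
    · refine setIntegral_congr_fun (measurableSet_Q d) fun x _ => ?_
      simp only [hΦ, Finset.mul_sum]
      exact Finset.sum_congr rfl fun z _ => by rw [ee_shift]
    · exact (hce.mul hc).comp (continuous_id.add continuous_const)
  · set a : (Fin d → ℤ) → (Fin d → ℤ) → ℂ := fun z w =>
      ∫ x in Q d, φ (x + ci z) * conj (φ (x + ci w)) with ha
    have h1 : ∀ u : Fin d → ℤ, ∫ x, φ x * conj (φ (x + ci u)) = ∑ z ∈ Z, a z (z + u) := fun u => by
      have hg : Integrable fun x : Fin d → ℝ => φ x * conj (φ (x + ci u)) :=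
        (hc.mul (Complex.continuous_conj.comp (hsh u))).integrable_of_hasCompactSupport hs.mul_right
      rw [unfold_fin _ hg Z fun z hz x hx => by rw [hZ' z hz x hx, zero_mul]]
      refine Finset.sum_congr rfl fun z _ => ?_
      simp only [ha, ci_add, add_assoc]
    have h2 : ∀ z, HasSum (fun u => a z (z + u)) (∑ w ∈ Z, a z w) := fun z => by
      have h3 : HasSum (fun w => a z w) (∑ w ∈ Z, a z w) := by
        refine hasSum_sum_of_ne_finset_zero fun w hw => ?_
        simp only [ha]
        rw [setIntegral_congr_fun (measurableSet_Q d)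
          (fun x hx => by rw [hZ' w hw x hx, map_zero, mul_zero])]
        simp
      exact (Equiv.addLeft z).hasSum_iff.2 h3
    have h3 : HasSum (fun u => ∑ z ∈ Z, a z (z + u)) (∑ z ∈ Z, ∑ w ∈ Z, a z w) :=
      hasSum_sum fun z _ => h2 z
    have h4 : ∑ z ∈ Z, ∑ w ∈ Z, a z w = ((∫ x in Q d, ‖Φ x‖ ^ 2 : ℝ) : ℂ) := by
      have h5 : ∀ z w : Fin d → ℤ, IntegrableOn (fun x => φ (x + ci z) * conj (φ (x + ci w))) (Q d) :=
        fun z w => integrableOn_Q _ ((hsh z).mul (Complex.continuous_conj.comp (hsh w)))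
      simp only [ha]
      rw [Finset.sum_congr rfl fun z _ => (integral_finsetSum Z fun w _ => h5 z w).symm]
      rw [← integral_finsetSum Z fun z _ => integrable_finsetSum Z fun w _ => h5 z w]
      rw [← integral_complex_ofReal]
      refine setIntegral_congr_fun (measurableSet_Q d) fun x _ => ?_
      simp only [hΦ]
      rw [Complex.ofReal_pow, ← Complex.mul_conj', map_sum, Finset.sum_mul_sum]
    rw [← h4]
    exact h3.congr_fun h1

end Pool.Agent.H880R3.CP
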