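import Mathlib

/-! Unfolding over the integer lattice and Parseval for compactly supported functions. -/

set_option autoImplicit false

open MeasureTheory Metric Real
open scoped ComplexConjugate

namespace Pool.Agent.H880R3.CP

/-- the integer vector `z` as a real vector -/
def ci {d : ℕ} (z : Fin d → ℤ) : Fin d → ℝ := fun i => (z i : ℝ)

theorem ci_add {d : ℕ} (z w : Fin d → ℤ) : ci (z + w) = ci z + ci w := by
  ext i; simp [ci]

theorem ci_zero {d : ℕ} : ci (0 : Fin d → ℤ) = 0 := by
  ext i; simp [ci]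

/-- the half open unit cube -/
def Q (d : ℕ) : Set (Fin d → ℝ) := {x | ∀ i, x i ∈ Set.Ioc (0 : ℝ) (0 + 1)}

theorem measurableSet_Q (d : ℕ) : MeasurableSet (Q d) :=
  MeasurableSet.univ_pi' (fun _ => measurableSet_Ioc)

/-- integer vectors act by translations -/
@[instance_reducible] def act (d : ℕ) : AddAction (Fin d → ℤ) (Fin d → ℝ) where
  vadd z x := ci z + x
  zero_vadd x := by
    change ci 0 + x = x
    rw [ci_zero, zero_add]
  add_vadd z w x := by
    change ci (z + w) + x = ci z + (ci w + x)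
    rw [ci_add, add_assoc]

attribute [local instance] act

theorem vadd_def {d : ℕ} (z : Fin d → ℤ) (x : Fin d → ℝ) : z +ᵥ x = ci z + x := rfl

theorem fund (d : ℕ) : IsAddFundamentalDomain (Fin d → ℤ) (Q d) (volume : Measure (Fin d → ℝ)) := by
  refine IsAddFundamentalDomain.mk' (measurableSet_Q d).nullMeasurableSet fun x => ?_
  have h := fun i => existsUnique_add_zsmul_mem_Ioc (zero_lt_one' ℝ) (x i) 0
  choose z hz hu using fun i => (h i)
  refine ⟨z, fun i => ?_, fun w hw => ?_⟩
  · have := hz i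
    simp only [zsmul_eq_mul, mul_one] at this
    rw [vadd_def, Pi.add_apply, add_comm (ci z i)]
    exact this
  · ext i
    refine hu i (w i) ?_
    have := hw i
    rw [vadd_def, Pi.add_apply, add_comm (ci w i)] at this
    simpa only [zsmul_eq_mul, mul_one, ci] using this

theorem mvadd (d : ℕ) : MeasurableConstVAdd (Fin d → ℤ) (Fin d → ℝ) :=
  ⟨fun z => measurable_const_add (ci z)⟩

theorem ivadd (d : ℕ) : VAddInvariantMeasure (Fin d → ℤ) (Fin d → ℝ) volume :=
  ⟨fun z s _ => measure_preimage_add volume (ci z) s⟩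

/-- unfolding -/
theorem unfold {d : ℕ} (f : (Fin d → ℝ) → ℂ) (hf : Integrable f) :
    ∫ x, f x = ∑' z : Fin d → ℤ, ∫ x in Q d, f (x + ci z) := by
  have := mvadd d
  have := ivadd d
  rw [(fund d).integral_eq_tsum'' f hf]
  refine tsum_congr fun z => ?_
  simp only [vadd_def, add_comm]

theorem unfold_fin {d : ℕ} (f : (Fin d → ℝ) → ℂ) (hf : Integrable f) (Z : Finset (Fin d → ℤ))
    (hZ : ∀ z ∉ Z, ∀ x ∈ Q d, f (x + ci z) = 0) :
    ∫ x, f x = ∑ z ∈ Z, ∫ x in Q d, f (x + ci z) := by
  rw [unfold f hf, tsum_eq_sum]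
  intro z hz
  rw [setIntegral_congr_fun (measurableSet_Q d) (fun x hx => hZ z hz x hx)]
  simp

/-- finitely many translates of the cube meet a compact set -/
theorem exists_Z {d : ℕ} (K : Set (Fin d → ℝ)) (hK : IsCompact K) :
    ∃ Z : Finset (Fin d → ℤ), ∀ z ∉ Z, ∀ x ∈ Q d, x + ci z ∉ K := by
  obtain ⟨R, hR⟩ := hK.isBounded.exists_norm_le
  have hfin : (Set.Icc (fun _ => -⌈R + 1⌉) (fun _ => ⌈R + 1⌉) : Set (Fin d → ℤ)).Finite :=
    Set.finite_Icc _ _
  refine ⟨hfin.toFinset, fun z hz x hx hK' => hz ?_⟩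
  rw [Set.Finite.mem_toFinset, Set.mem_Icc]
  have h1 : ∀ i, |x i + z i| ≤ R := fun i => by
    have := (norm_le_pi_norm (x + ci z) i).trans (hR _ hK')
    simpa [ci, Real.norm_eq_abs] using this
  constructor
  · intro i
    have h2 := abs_le.1 (h1 i)
    have h3 := hx i
    have h4 := Int.le_ceil (R + 1)
    have : (-(⌈R + 1⌉ : ℝ)) ≤ z i := by
      have := h3.2
      linarith
    exact_mod_cast this
  · intro i
    have h2 := abs_le.1 (h1 i)
    have h3 := hx i
    have h4 := Int.le_ceil (R + 1)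
    have : (z i : ℝ) ≤ (⌈R + 1⌉ : ℝ) := by
      have := h3.1
      linarith
    exact_mod_cast this

end Pool.Agent.H880R3.CP
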